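import Pool.Agent.H484.HH.Stm

/-!
# HH-CB (helper264): Fourier transform of a convolution of two arcs
-/

set_option autoImplicit false

open Finset

namespace Pool.Agent.H484.HH

namespace CB264

variable {N : ℕ} [NeZero N]

lemma ft_conv (z k : ZMod N) (n n' : ℕ) : ft (conv z n n') k =
    (∑ i ∈ range n, (ZMod.stdAddChar (-(k * (z + (i : ZMod N)))) : ℂ)) *
      ∑ i' ∈ range n', (ZMod.stdAddChar (-(k * (0 + (i' : ZMod N)))) : ℂ) := by
  unfold ft conv
  have h1 : ∀ x : ZMod N, (((∑ i ∈ range n, ∑ i' ∈ range n',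
      if z + (i : ZMod N) + (i' : ZMod N) = x then (1 : ℝ) else 0) : ℝ) : ℂ) *
        ZMod.stdAddChar (-(k * x)) = ∑ i ∈ range n, ∑ i' ∈ range n',
      if z + (i : ZMod N) + (i' : ZMod N) = x then (ZMod.stdAddChar (-(k * x)) : ℂ) else 0 := by
    intro x
    push_cast
    rw [sum_mul]
    refine sum_congr rfl fun i _ => ?_
    rw [sum_mul]
    refine sum_congr rfl fun i' _ => ?_
    split_ifs
    · rw [Complex.ofReal_one, one_mul]
    · rw [Complex.ofReal_zero, zero_mul]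
  rw [sum_congr rfl fun x _ => h1 x, sum_comm, sum_mul_sum]
  refine sum_congr rfl fun i _ => ?_
  rw [sum_comm]
  refine sum_congr rfl fun i' _ => ?_
  rw [sum_ite_eq]
  simp only [mem_univ, if_true]
  rw [← AddChar.map_add_eq_mul]
  congr 1
  ring

/-- one factor -/
lemma factor {S a K : ℝ} (hN : 0 < (N : ℝ)) (ha : 0 ≤ a) (haN : a ≤ N) (_hS : 0 ≤ S)
    (h8 : S ≤ 8 * a) (hK0 : K = 0 ∨ 1 ≤ K) (hK : S * (2 * K) ≤ N) :
    S * (1 + a * max 1 K / N) ≤ 16 * a := by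
  have e1 : S * (1 + a * max 1 K / N) = S + S * max 1 K * a / N := by ring
  rw [e1]
  have e2 : S * max 1 K * a / N ≤ 8 * a := by
    rw [div_le_iff₀ hN]
    rcases hK0 with h | h
    · rw [h, max_eq_left zero_le_one, mul_one]
      nlinarith
    · rw [max_eq_right h]
      nlinarith
  linarith

end CB264

open CB264 in
theorem t_CB (hKER : S_KER) : S_CB := by
  intro N _ z k j n n' hj hn hn'
  have hN : 0 < (N : ℝ) := by exact_mod_cast Nat.pos_of_ne_zero (NeZero.ne N)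
  obtain ⟨a, ha⟩ : ∃ a : ℝ, a = 2 ^ j := ⟨_, rfl⟩
  have ha0 : 0 < a := by rw [ha]; positivity
  have haN : a ≤ N := by rw [ha]; exact_mod_cast hj
  have hn1 : (n : ℝ) ≤ 8 * a := by rw [ha]; exact_mod_cast hn
  have hn2 : (n' : ℝ) ≤ 8 * a := by rw [ha]; exact_mod_cast hn'
  obtain ⟨K, hK⟩ : ∃ K : ℝ, K = (k.valMinAbs.natAbs : ℝ) := ⟨_, rfl⟩
  have hK0 : K = 0 ∨ 1 ≤ K := by
    rcases Nat.eq_zero_or_pos k.valMinAbs.natAbs with h | h
    · left; rw [hK, h, Nat.cast_zero]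
    · right; rw [hK]; exact_mod_cast h
  obtain ⟨k1, k2⟩ := hKER N k z n
  obtain ⟨k3, k4⟩ := hKER N k 0 n'
  rw [← hK] at k2 k4
  have f1 := factor hN ha0.le haN (norm_nonneg _) (k1.trans hn1) hK0 k2
  have f2 := factor hN ha0.le haN (norm_nonneg _) (k3.trans hn2) hK0 k4
  rw [ft_conv, norm_mul]
  unfold W M
  rw [← ha, ← hK]
  obtain ⟨w, hw⟩ : ∃ w : ℝ, w = 1 + a * max 1 K / N := ⟨_, rfl⟩
  have hw0 : 0 < w := by
    rw [hw]
    have : 0 ≤ a * max 1 K / N := by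
      have : 0 ≤ max 1 K := zero_le_one.trans (le_max_left _ _)
      positivity
    linarith
  rw [← hw] at f1 f2 ⊢
  rw [mul_one_div, le_div_iff₀ (by positivity)]
  have f3 := mul_le_mul f1 f2 (by positivity) (by positivity)
  calc _ = _ * w * (_ * w) := by ring
    _ ≤ 16 * a * (16 * a) := f3
    _ = 256 * a ^ 2 := by ring

end Pool.Agent.H484.HH
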